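import Mathlib
import Pool.Agent.Helper23.K6.Defs
import Pool.Agent.Helper44.MW.Lam

/-!
Module LOG: additivity and functoriality of `gg` (helper23's statements).
-/

namespace Pool.Agent.Helper23.K6

open Polynomial Pool.Agent.Helper44

section LOG

variable {K L : Type*} [Field K] [Field L]

lemma gg_some_eq_lam (d : DerZ K) (D : K) (h2 : (2 : K) ≠ 0) (h3 : (3 : K) ≠ 0) (hD : D ≠ 0)
    {x y : K} (h : (mordell (D ^ 2)).toAffine.Nonsingular x y) (hy : y ≠ 0) :
    gg d D (.some x y h) = MW.lam d D (.some x y h) := by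
  have e : y ^ 2 = x ^ 3 + D ^ 2 := (mordell_equation _ _ _).1 h.1
  have e' := congrArg d e
  rw [map_add, Derivation.leibniz_pow, Derivation.leibniz_pow, Derivation.leibniz_pow] at e'
  simp only [smul_eq_mul, nsmul_eq_mul, Nat.cast_ofNat, Nat.add_one_sub_one, pow_one,
    Nat.reduceSub] at e'
  simp only [gg, MW.lam]
  field_simp
  linear_combination (-3 * d x) * e + x * e'

variable [DecidableEq K] [DecidableEq L]

lemma gg_eq_lam (d : DerZ K) (D : K) (h2 : (2 : K) ≠ 0) (h3 : (3 : K) ≠ 0) (hD : D ≠ 0)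
    (hno : ∀ x : K, x ^ 3 + D ^ 2 ≠ 0) (P : (mordell (D ^ 2)).toAffine.Point) :
    gg d D P = MW.lam d D P := by
  cases P with
  | zero => rfl
  | some x y h =>
    apply gg_some_eq_lam d D h2 h3 hD
    rintro rfl
    have e : (0 : K) ^ 2 = x ^ 3 + D ^ 2 := (mordell_equation _ _ _).1 h.1
    exact hno x (by rw [← e]; ring)

theorem gg_add (d : DerZ K) (D : K) (h2 : (2 : K) ≠ 0) (h3 : (3 : K) ≠ 0) (hD : D ≠ 0)
    (hno : ∀ x : K, x ^ 3 + D ^ 2 ≠ 0) (P Q : (mordell (D ^ 2)).toAffine.Point) :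
    gg d D (P + Q) = gg d D P + gg d D Q := by
  rw [gg_eq_lam d D h2 h3 hD hno, gg_eq_lam d D h2 h3 hD hno, gg_eq_lam d D h2 h3 hD hno]
  exact MW.lam_add d D h2 P Q

theorem gg_tw (σ : K →+* L) (u : L) (hu : u ≠ 0) (D : K) (D' : L) (hD : D ≠ 0)
    (h : u ^ 6 * σ (D ^ 2) = D' ^ 2)
    (dK : DerZ K) (dL : DerZ L) (c : L) (hc : ∀ f, dL (σ f) = c * σ (dK f))
    (hu' : dL u = 0) (h2 : (2 : L) ≠ 0) (P : (mordell (D ^ 2)).toAffine.Point) :
    gg dL D' (tw σ u hu h P) = c * u⁻¹ * σ (gg dK D P) := by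
  cases P with
  | zero =>
    change (0 : L) = c * u⁻¹ * σ 0
    simp
  | some x y hns =>
    rw [tw_some]
    simp only [gg]
    have hσD : σ D ≠ 0 := (_root_.map_ne_zero σ).2 hD
    have hD' : D' ≠ 0 := by
      rintro rfl
      have : u ^ 6 * σ (D ^ 2) ≠ 0 := by
        rw [map_pow]
        exact mul_ne_zero (pow_ne_zero _ hu) (pow_ne_zero _ hσD)
      apply this
      rw [h]; simp
    have hdu : ∀ n : ℕ, dL (u ^ n) = 0 := by
      intro n
      rw [Derivation.leibniz_pow, hu']
      simp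
    have hx : dL (u ^ 2 * σ x) = u ^ 2 * (c * σ (dK x)) := by
      rw [Derivation.leibniz, hdu, hc]
      simp
    have h' := congrArg dL h
    rw [Derivation.leibniz, hdu, hc, Derivation.leibniz_pow, Derivation.leibniz_pow] at h'
    simp only [smul_eq_mul, nsmul_eq_mul, Nat.cast_ofNat, Nat.add_one_sub_one, pow_one,
      mul_zero, add_zero, map_mul, map_ofNat] at h'
    rw [map_pow] at h
    have key : dL D' / D' = c * σ (dK D / D) := by
      rw [map_div₀]
      rw [div_eq_iff hD']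
      have h3 : 2 * D' * (dL D' * σ D - c * σ (dK D) * D') = 0 := by
        linear_combination (-σ D) * h' + 2 * c * σ (dK D) * h
      have h4 : dL D' * σ D - c * σ (dK D) * D' = 0 := by
        rcases mul_eq_zero.1 h3 with h5 | h5
        · exact absurd h5 (mul_ne_zero h2 hD')
        · exact h5
      field_simp
      linear_combination h4
    rw [hx, key]
    by_cases hy : σ y = 0
    · have hy0 : y = 0 := (_root_.map_eq_zero σ).1 hy
      subst hy0
      simp
    · simp only [map_div₀, map_sub, map_mul, map_ofNat]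
      field_simp

end LOG

end Pool.Agent.Helper23.K6
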