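import Mathlib
import Pool.Agent.Helper23.K6.Der

/-!
Module CART: the Cartier relation for the polynomial `D * gg P`.
-/

namespace Pool.Agent.Helper23.K6

open Polynomial Pool.Agent.Helper44

section CART

variable {k : Type*} [Field k] {p : ℕ} [hp : Fact p.Prime] [CharP k p]

lemma der_iterate_sum {ι : Type*} (n : ℕ) (s : Finset ι) (f : ι → RatFunc k) :
    (der k)^[n] (∑ i ∈ s, f i) = ∑ i ∈ s, (der k)^[n] (f i) := by
  classical
  induction s using Finset.induction_on with
  | empty => simp [der_iterate_zero]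
  | insert a s ha ih => rw [Finset.sum_insert ha, Finset.sum_insert ha, der_iterate_add, ih]

lemma der_iterate_const_mul (n : ℕ) (c : k) (f : RatFunc k) :
    (der k)^[n] (RatFunc.C c * f) = RatFunc.C c * (der k)^[n] f := by
  induction n with
  | zero => rfl
  | succ n ih =>
    rw [Function.iterate_succ_apply', Function.iterate_succ_apply', ih, der_mul, der_C]
    ring

lemma three_pow_char : (3 : k) ^ p = 3 := by
  have h := map_natCast (frobenius k p) 3
  rw [frobenius_def] at h
  exact_mod_cast h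

/-- logarithmic derivative of `x ^ 3 / D ^ 2`. -/
noncomputable def LL (x D : RatFunc k) : RatFunc k := 3 * (der k x / x) - 2 * (der k D / D)

lemma LL_eq {x D : RatFunc k} (hx : x ≠ 0) (hD : D ≠ 0) :
    der k (x ^ 3 / D ^ 2) / (x ^ 3 / D ^ 2) = LL x D := by
  rw [dz_div _ _ _ (pow_ne_zero _ hD), dz_pow, dz_pow, LL]
  norm_num
  field_simp

lemma term_zero (hp3 : p % 3 = 1) {x D : RatFunc k} (hx : x ≠ 0) (hD : D ≠ 0) {i a : ℕ}
    (hi : i ≤ (p - 1) / 2) (hne : i ≠ (p - 1) / 3) (ha : a + 2 * i = 5 * ((p - 1) / 3) + 1) :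
    (der k)^[p - 1] (x ^ (3 * i + 1) * D ^ a * LL x D) = 0 := by
  have hp1 := hp.out.one_lt
  have hcast : ∀ n : ℕ, ((n : ℕ) : k) = 0 ↔ p ∣ n := fun n => CharP.cast_eq_zero_iff k p n
  -- the integer `i - (p-1)/3` is nonzero in `k`
  set mm := (p - 1) / 3 with hmm
  have hpm : p = 3 * mm + 1 := by omega
  obtain ⟨c, hc⟩ : ∃ c : k, c * ((i : k) - (mm : k)) = 1 := by
    have hne' : ((i : k) - (mm : k)) ≠ 0 := by
      intro h0
      have h1 : ((i : ℤ) - (mm : ℤ) : ℤ) = ((i : ℤ) - (mm : ℤ)) := rfl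
      have h2 : (((i : ℤ) - (mm : ℤ) : ℤ) : k) = 0 := by push_cast; exact h0
      rw [CharP.intCast_eq_zero_iff k p] at h2
      have h3 := Int.eq_zero_of_abs_lt_dvd h2 (by
        rw [abs_lt]
        constructor <;> omega)
      apply hne
      omega
    exact ⟨((i : k) - (mm : k))⁻¹, inv_mul_cancel₀ hne'⟩
  have hpk : ((p : ℕ) : RatFunc k) = 0 := cast_p_ratFunc p
  have e1 : ((3 * i + 1 : ℕ) : RatFunc k) = 3 * ((i : RatFunc k) - (mm : RatFunc k)) := by
    have : ((3 * mm + 1 : ℕ) : RatFunc k) = 0 := by rw [← hpm]; exact hpk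
    push_cast at this ⊢
    linear_combination this
  have e2 : ((a : ℕ) : RatFunc k) = -2 * ((i : RatFunc k) - (mm : RatFunc k)) := by
    have h1 : ((3 * mm + 1 : ℕ) : RatFunc k) = 0 := by rw [← hpm]; exact hpk
    have h2 : ((a + 2 * i : ℕ) : RatFunc k) = ((5 * mm + 1 : ℕ) : RatFunc k) := by rw [ha]
    push_cast at h1 h2
    linear_combination h2 + h1
  have hF : der k (x ^ (3 * i + 1) * D ^ a) =
      ((i : RatFunc k) - (mm : RatFunc k)) * (x ^ (3 * i + 1) * D ^ a * LL x D) := by
    by_cases ha0 : a = 0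
    · subst ha0
      have e2' : ((i : RatFunc k) - (mm : RatFunc k)) * 2 = 0 := by
        push_cast at e2; linear_combination e2
      rw [pow_zero, mul_one, dz_pow, e1, LL, Nat.add_sub_cancel, pow_succ]
      field_simp
      linear_combination (x * der k D) * e2'
    · obtain ⟨a', rfl⟩ := Nat.exists_eq_succ_of_ne_zero ha0
      rw [der_mul, dz_pow, dz_pow, e1, e2, LL, Nat.add_sub_cancel, Nat.succ_sub_one, pow_succ x,
        pow_succ D]
      field_simp
      ring
  have hF' : x ^ (3 * i + 1) * D ^ a * LL x D =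
      RatFunc.C c * der k (x ^ (3 * i + 1) * D ^ a) := by
    have hcc : RatFunc.C c * ((i : RatFunc k) - (mm : RatFunc k)) = 1 := by
      have := congrArg (RatFunc.C (K := k)) hc
      simpa using this
    rw [hF]
    linear_combination (-(x ^ (3 * i + 1) * D ^ a * LL x D)) * hcc
  rw [hF', der_iterate_const_mul, ← Function.iterate_succ_apply]
  have : (p - 1).succ = p := by omega
  rw [this, der_iterate_p, mul_zero]

theorem cart_aux [IsAlgClosed k] (hp3 : p % 3 = 1) {x y D : RatFunc k} (hx : x ≠ 0) (hy : y ≠ 0)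
    (hD : D ≠ 0) (h3 : (3 : k) ≠ 0) (h : y ^ 2 = x ^ 3 + D ^ 2) :
    (der k)^[p - 1] (x * LL x D / (3 * y) * D ^ (2 * ((p - 1) / 3) + 1)) =
      -(((p - 1) / 2).choose ((p - 1) / 3) : RatFunc k) * (D * (x * LL x D / (3 * y))) ^ p := by
  have hp1 := hp.out.two_le
  have hchar := charP_ratFunc (k := k) p
  set mm := (p - 1) / 3 with hmm
  set n := (p - 1) / 2 with hn
  have hpm : p = 3 * mm + 1 := by omega
  have hodd : Odd p := by
    rcases hp.out.eq_two_or_odd' with h2 | h2
    · omega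
    · exact h2
  have hpn : p = 2 * n + 1 := by
    obtain ⟨t, ht⟩ := hodd
    omega
  have h3' : (3 : RatFunc k) ≠ 0 := by
    have : (3 : RatFunc k) = RatFunc.C (3 : k) := (map_ofNat RatFunc.C 3).symm
    rw [this]
    exact (_root_.map_ne_zero _).2 h3
  have h3p : (3 : RatFunc k) ^ p = 3 := by
    have h := map_natCast (frobenius (RatFunc k) p) 3
    rw [frobenius_def] at h
    exact_mod_cast h
  -- expansion
  have hexp : x * LL x D / (3 * y) * D ^ (2 * mm + 1) =
      (∑ i ∈ Finset.range (n + 1), RatFunc.C ((3 : k)⁻¹ * (n.choose i : k)) *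
        (x ^ (3 * i + 1) * D ^ (5 * mm + 1 - 2 * i) * LL x D)) * (1 / y) ^ p := by
    have hyp : y ^ p = y * (x ^ 3 + D ^ 2) ^ n := by
      rw [← h, ← pow_mul, ← pow_succ']
      congr 1
    rw [div_pow, one_pow, hyp, add_pow, ]
    have hsum : ∑ i ∈ Finset.range (n + 1), RatFunc.C ((3 : k)⁻¹ * (n.choose i : k)) *
        (x ^ (3 * i + 1) * D ^ (5 * mm + 1 - 2 * i) * LL x D) =
        (x * LL x D / 3 * D ^ (2 * mm + 1)) *
          ∑ i ∈ Finset.range (n + 1), (x ^ 3) ^ i * (D ^ 2) ^ (n - i) * (n.choose i : RatFunc k) := by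
      rw [Finset.mul_sum]
      apply Finset.sum_congr rfl
      intro i hi
      rw [Finset.mem_range] at hi
      have e : 5 * mm + 1 - 2 * i = (2 * mm + 1) + 2 * (n - i) := by omega
      rw [e]
      simp only [map_mul, map_inv₀, map_natCast, map_ofNat]
      rw [← pow_mul, ← pow_mul]
      ring
    rw [hsum]
    have hS : ∑ i ∈ Finset.range (n + 1), (x ^ 3) ^ i * (D ^ 2) ^ (n - i) *
        (n.choose i : RatFunc k) ≠ 0 := by
      rw [← add_pow, ← h]
      exact pow_ne_zero _ (pow_ne_zero _ hy)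
    field_simp
  rw [hexp, der_iterate_mul_pow, der_iterate_sum]
  have hmn : mm ∈ Finset.range (n + 1) := by
    rw [Finset.mem_range]; omega
  rw [Finset.sum_eq_single_of_mem mm hmn]
  · rw [der_iterate_const_mul]
    have e : x ^ (3 * mm + 1) * D ^ (5 * mm + 1 - 2 * mm) * LL x D = LL x D * (x * D) ^ p := by
      have e1 : 5 * mm + 1 - 2 * mm = 3 * mm + 1 := by omega
      rw [e1, ← hpm, mul_pow]
      ring
    rw [e, der_iterate_mul_pow]
    have hl := cartier_log p hodd (x ^ 3 / D ^ 2)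
      (div_ne_zero (pow_ne_zero _ hx) (pow_ne_zero _ hD))
    rw [LL_eq hx hD] at hl
    rw [hl]
    have e5 : (D * (x * LL x D / (3 * y))) ^ p = D ^ p * (x ^ p * LL x D ^ p / (3 * y ^ p)) := by
      rw [mul_pow, div_pow, mul_pow, mul_pow, h3p]
    rw [e5]
    simp only [map_mul, map_inv₀, map_natCast, map_ofNat]
    rw [mul_pow, div_pow, one_pow]
    field_simp
  · intro i hi hne
    rw [Finset.mem_range] at hi
    rw [der_iterate_const_mul, term_zero hp3 hx hD (by omega) (by omega) (by omega), mul_zero]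

/-- `D * gg P` for an affine point. -/
lemma gg_eq_LL {x y D : RatFunc k} (hx : x ≠ 0) (hy : y ≠ 0) (hD : D ≠ 0) (h3 : (3 : k) ≠ 0) :
    (der k x - 2 / 3 * (der k D / D) * x) / y = x * LL x D / (3 * y) := by
  have h3' : (3 : RatFunc k) ≠ 0 := by
    have : (3 : RatFunc k) = RatFunc.C (3 : k) := (map_ofNat RatFunc.C 3).symm
    rw [this]
    exact (_root_.map_ne_zero _).2 h3
  rw [LL]
  field_simp

theorem cart [IsAlgClosed k] (hp3 : p % 3 = 1) (h3 : (3 : k) ≠ 0) (α γ : k) (m : ℕ)
    (hDD : DD α γ m ≠ 0) (hno : ∀ x : RatFunc k, x ^ 3 + DD α γ m ^ 2 ≠ 0)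
    (P : Pt (DD α γ m)) (H : k[X])
    (hH : DD α γ m * gg (der k) (DD α γ m) P = algebraMap k[X] (RatFunc k) H) :
    derivative^[p - 1] (H * Dp α γ m ^ (2 * ((p - 1) / 3))) =
      -(C (((p - 1) / 2).choose ((p - 1) / 3) : k)) * H ^ p := by
  have hzero : H = 0 → derivative^[p - 1] (H * Dp α γ m ^ (2 * ((p - 1) / 3))) =
      -(C (((p - 1) / 2).choose ((p - 1) / 3) : k)) * H ^ p := by
    rintro rfl
    rw [zero_mul, zero_pow hp.out.ne_zero, mul_zero]
    exact iterate_map_zero (derivative (R := k)) (p - 1)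
  cases P with
  | zero =>
    apply hzero
    have h0 : DD α γ m * gg (der k) (DD α γ m) (.zero) = 0 := mul_zero _
    rw [h0] at hH
    exact ((map_eq_zero_iff _ (RatFunc.algebraMap_injective k)).1 hH.symm)
  | some x y hns =>
    have e := (mordell_equation _ _ _).1 hns.1
    have hy : y ≠ 0 := by
      rintro rfl
      apply hno x
      rw [← e]; ring
    by_cases hx : x = 0
    · apply hzero
      subst hx
      simp only [gg, map_zero, mul_zero, sub_zero, zero_div] at hH
      exact ((map_eq_zero_iff _ (RatFunc.algebraMap_injective k)).1 hH.symm)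
    · apply RatFunc.algebraMap_injective k
      rw [← der_iterate_algebraMap, map_mul, ← hH, map_mul, map_neg, map_pow, map_pow, ← hH]
      simp only [gg]
      rw [gg_eq_LL hx hy hDD h3]
      have h := cart_aux hp3 hx hy hDD h3 e
      rw [show algebraMap k[X] (RatFunc k) (C (((p - 1) / 2).choose ((p - 1) / 3) : k)) =
        (((p - 1) / 2).choose ((p - 1) / 3) : RatFunc k) by
          rw [RatFunc.algebraMap_C, map_natCast], ← h]
      congr 1
      rw [show algebraMap k[X] (RatFunc k) (Dp α γ m) = DD α γ m from rfl, pow_succ]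
      ring

end CART

end Pool.Agent.Helper23.K6
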