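import Mathlib
import Pool.Agent.Helper23.K6.HH

/-!
Module EXPL-B: explicit points for the characters of order 12 and 30.
-/

namespace Pool.Agent.Helper23.K6

open Polynomial Pool.Agent.Helper44

section generic

variable {K : Type*} [Field K]

lemma gen12 (d : DerZ K) {T a e ρ α γ : K} (ha : d a = 0)
    (hα : d α = 0) (hγ : d γ = 0) (h3 : (3 : K) ≠ 0) (hT : T ≠ 0) (he0 : e ≠ 0)
    (hα0 : α ≠ 0)
    (hN : T ^ 12 - γ ≠ 0) (hR : T ^ 6 + ρ ≠ 0) (e1 : e ^ 2 = a ^ 3) (e2 : 2 * ρ * e ^ 2 = α ^ 2)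
    (e3 : ρ ^ 2 = -γ) :
    (e * (T ^ 12 - γ) * (T ^ 6 + ρ) / T ^ 3) ^ 2 =
      (a * (T ^ 12 - γ) / T ^ 2) ^ 3 + (α * (T ^ 12 - γ)) ^ 2 ∧
    (α * (T ^ 12 - γ)) * ((d (a * (T ^ 12 - γ) / T ^ 2) -
      2 / 3 * (d (α * (T ^ 12 - γ)) / (α * (T ^ 12 - γ))) * (a * (T ^ 12 - γ) / T ^ 2)) /
      (e * (T ^ 12 - γ) * (T ^ 6 + ρ) / T ^ 3)) = 2 * α * a / e * (T ^ 6 - ρ) * d T := by
  constructor
  · field_simp
    linear_combination (T ^ 12 - γ) * e1 + T ^ 6 * e2 + e ^ 2 * e3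
  · rw [dz_div d _ _ (pow_ne_zero _ hT), dz_mul, dz_mul, map_sub, dz_pow, dz_pow, ha, hα, hγ]
    norm_num
    field_simp
    linear_combination (6 * a * d T) * e3

lemma gen30 (d : DerZ K) {T S R κ : K} (hκ : d κ = 0) (h3 : (3 : K) ≠ 0) (hT : T ≠ 0)
    (hκ0 : κ ≠ 0) (hN : (S + R) * (S - R) ≠ 0) (hR0 : R ≠ 0) (hS0 : S ≠ 0) :
    (κ ^ 3 * ((S + R) * (S - R)) * S / T ^ 3) ^ 2 =
      (κ ^ 2 * ((S + R) * (S - R)) / T ^ 2) ^ 3 + (κ ^ 3 * ((S + R) * (S - R)) * R / T ^ 3) ^ 2 ∧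
    (κ ^ 3 * ((S + R) * (S - R)) * R / T ^ 3) * ((d (κ ^ 2 * ((S + R) * (S - R)) / T ^ 2) -
      2 / 3 * (d (κ ^ 3 * ((S + R) * (S - R)) * R / T ^ 3) /
        (κ ^ 3 * ((S + R) * (S - R)) * R / T ^ 3)) * (κ ^ 2 * ((S + R) * (S - R)) / T ^ 2)) /
      (κ ^ 3 * ((S + R) * (S - R)) * S / T ^ 3)) =
      2 * κ ^ 2 / 3 * (R * d S - S * d R) / T ^ 2 := by
  have hA : S + R ≠ 0 := left_ne_zero_of_mul hN
  have hB : S - R ≠ 0 := right_ne_zero_of_mul hN
  constructor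
  · field_simp
    ring
  · rw [dz_div d _ _ (pow_ne_zero _ hT), dz_div d _ _ (pow_ne_zero _ hT)]
    simp only [dz_mul, dz_pow, map_add, map_sub, hκ, mul_zero, add_zero]
    norm_num
    field_simp
    ring

end generic

section EXPL

variable {k : Type*} [Field k] [DecidableEq (RatFunc k)] {p : ℕ}
  {α γ : k} {l : ℕ}

omit [DecidableEq (RatFunc k)] in
lemma der_X_pow (i : ℕ) : der k (algebraMap k[X] (RatFunc k) (X ^ i)) =
    algebraMap k[X] (RatFunc k) (C (i : k) * X ^ (i - 1)) := by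
  rw [der_algebraMap, derivative_X_pow]

omit [DecidableEq (RatFunc k)] in
/-- extract the vector `hv` from an explicit formula. -/
lemma hv_of_formula (hG : Good p α γ l) {x y : RatFunc k}
    (hns : (mordell (DD α γ (3 * l) ^ 2)).toAffine.Nonsingular x y) (H : k[X])
    (h : DD α γ (3 * l) * ((der k x - 2 / 3 * (der k (DD α γ (3 * l)) / DD α γ (3 * l)) * x) / y) =
      algebraMap k[X] (RatFunc k) H) (j : ZMod (3 * l)) (hj : j.val ≠ 0) :
    hv α γ l (.some x y hns) j = H.coeff (j.val - 1) := by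
  rw [hv, if_neg hj, HH_eq hG (.some x y hns) H h]

omit [DecidableEq (RatFunc k)] in
lemma DD_eq_of (i n : ℕ) (hi : n * i = 3 * l) :
    DD α γ (3 * l) = RatFunc.C α * ((algebraMap k[X] (RatFunc k) (X ^ i)) ^ n - RatFunc.C γ) := by
  rw [DD, Dp, map_mul, map_sub, RatFunc.algebraMap_C, RatFunc.algebraMap_C, ← map_pow, ← pow_mul,
    mul_comm i n, hi]

omit [DecidableEq (RatFunc k)] in
theorem expl12 (hG : Good p α γ l) (a e ρ : k) (h1 : e ^ 2 = a ^ 3) (h2 : 2 * ρ * e ^ 2 = α ^ 2)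
    (h3 : ρ ^ 2 = -γ) (i : ℕ) (hi : 12 * i = 3 * l) :
    ∃ P, ∀ j : ZMod (3 * l), (j.val = i → hv α γ l P j = -ρ * (2 * α * a / e) * i) ∧
      (j.val = 7 * i → hv α γ l P j = (2 * α * a / e) * i) := by
  have hl := hG.hl0
  have hi0 : 0 < i := by omega
  have hα := hG.hα
  have he : e ≠ 0 := by
    rintro rfl
    apply hα
    have : α ^ 2 = 0 := by rw [← h2]; ring
    exact pow_eq_zero_iff (two_ne_zero) |>.1 this
  have h2' := two_ne_zero_ratFunc hG.h2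
  have h3' := three_ne_zero_ratFunc hG.h3
  set T : RatFunc k := algebraMap k[X] (RatFunc k) (X ^ i) with hT
  have hT0 : T ≠ 0 := algebraMap_ne (pow_ne_zero _ X_ne_zero)
  have hD := DD_eq_of (α := α) (γ := γ) i 12 hi
  rw [← hT] at hD
  have hDne := hG.hD
  have hα' : RatFunc.C α ≠ 0 := (_root_.map_ne_zero _).2 hα
  have he' : RatFunc.C e ≠ 0 := (_root_.map_ne_zero _).2 he
  have hN : T ^ 12 - RatFunc.C γ ≠ 0 := by
    intro h0
    rw [hD, h0, mul_zero] at hDne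
    exact hDne rfl
  have e1 : (RatFunc.C e) ^ 2 = (RatFunc.C a) ^ 3 := by rw [← map_pow, h1, map_pow]
  have e2 : 2 * RatFunc.C ρ * (RatFunc.C e) ^ 2 = (RatFunc.C α) ^ 2 := by
    have := congrArg (RatFunc.C (K := k)) h2
    rwa [map_mul, map_mul, map_pow, map_pow, map_ofNat] at this
  have e3 : (RatFunc.C ρ) ^ 2 = -RatFunc.C γ := by
    have := congrArg (RatFunc.C (K := k)) h3
    simpa using this
  have hR : T ^ 6 + RatFunc.C ρ ≠ 0 := by
    have : T ^ 6 + RatFunc.C ρ = algebraMap k[X] (RatFunc k) (X ^ (6 * i) + C ρ) := by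
      rw [map_add, RatFunc.algebraMap_C, mul_comm 6 i, pow_mul, map_pow]
    rw [this]
    exact algebraMap_ne (X_pow_add_C_ne_zero (by omega) ρ)
  obtain ⟨g1, g2⟩ := gen12 (der k) (T := T) (der_C a) (der_C α) (der_C γ)
    h3' hT0 he' hα' hN hR e1 e2 e3
  rw [← hD] at g1 g2
  have hns := mordell_nonsingular _ _ _ (pow_ne_zero 2 hDne) h2' h3' g1
  refine ⟨.some _ _ hns, ?_⟩
  have hH : DD α γ (3 * l) * ((der k (RatFunc.C a * (T ^ 12 - RatFunc.C γ) / T ^ 2) -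
      2 / 3 * (der k (DD α γ (3 * l)) / DD α γ (3 * l)) *
      (RatFunc.C a * (T ^ 12 - RatFunc.C γ) / T ^ 2)) /
      (RatFunc.C e * (T ^ 12 - RatFunc.C γ) * (T ^ 6 + RatFunc.C ρ) / T ^ 3)) =
      algebraMap k[X] (RatFunc k) (C (2 * α * a / e * i) * X ^ (7 * i - 1) +
        C (-ρ * (2 * α * a / e) * i) * X ^ (i - 1)) := by
    rw [g2, hT, der_X_pow]
    simp only [map_add, map_mul, map_neg, map_div₀, map_pow, RatFunc.algebraMap_C,
      RatFunc.algebraMap_X, map_ofNat, map_natCast]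
    have : 7 * i - 1 = 6 * i + (i - 1) := by omega
    rw [this, pow_add]
    ring
  intro j
  constructor
  · intro hj
    rw [hv_of_formula hG hns _ hH j (by omega), hj]
    have hne : ¬ (i - 1 = 7 * i - 1) := by omega
    simp only [coeff_add, coeff_C_mul, coeff_X_pow, if_neg hne]
    simp
  · intro hj
    rw [hv_of_formula hG hns _ hH j (by omega), hj]
    have hne : ¬ (7 * i - 1 = i - 1) := by omega
    simp only [coeff_add, coeff_C_mul, coeff_X_pow, if_neg hne]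
    simp

omit [DecidableEq (RatFunc k)] in
theorem expl30 (hG : Good p α γ l) (e w δ κ : k) (h1 : e ^ 5 = γ) (h2 : w ^ 2 = 5)
    (h3 : δ ^ 2 = e * w * (2 - w)) (h4 : κ ^ 3 * δ = α) (i : ℕ) (hi : 30 * i = 3 * l) :
    ∃ P, ∀ j : ZMod (3 * l),
      (j.val = i → hv α γ l P j = e ^ 3 * (2 * κ ^ 2 * δ) * i) ∧
      (j.val = 7 * i → hv α γ l P j = - e ^ 2 * (w + 1) * (2 * κ ^ 2 * δ) * i) ∧
      (j.val = 13 * i → hv α γ l P j = - e * (w + 1) * (2 * κ ^ 2 * δ) * i) ∧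
      (j.val = 19 * i → hv α γ l P j = (2 * κ ^ 2 * δ) * i) := by
  have hl := hG.hl0
  have hi0 : 0 < i := by omega
  have hα := hG.hα
  have hκ : κ ≠ 0 := by
    rintro rfl
    apply hα
    rw [← h4]; ring
  have h2' := two_ne_zero_ratFunc hG.h2
  have h3' := three_ne_zero_ratFunc hG.h3
  set T : RatFunc k := algebraMap k[X] (RatFunc k) (X ^ i) with hT
  have hT0 : T ≠ 0 := algebraMap_ne (pow_ne_zero _ X_ne_zero)
  have hD := DD_eq_of (α := α) (γ := γ) i 30 hi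
  rw [← hT] at hD
  have hDne := hG.hD
  have hκ' : RatFunc.C κ ≠ 0 := (_root_.map_ne_zero _).2 hκ
  set E : RatFunc k := RatFunc.C e with hE
  set W : RatFunc k := RatFunc.C w with hW
  set Δ : RatFunc k := RatFunc.C δ with hΔ
  set Κ : RatFunc k := RatFunc.C κ with hΚ
  have c1 : RatFunc.C γ = E ^ 5 := by rw [← h1, map_pow]
  have c2 : W ^ 2 = 5 := by
    have := congrArg (RatFunc.C (K := k)) h2
    rwa [map_pow, map_ofNat] at this
  have c3 : Δ ^ 2 = E * W * (2 - W) := by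
    have := congrArg (RatFunc.C (K := k)) h3
    rwa [map_mul, map_mul, map_pow, map_sub, map_ofNat] at this
  have c4 : RatFunc.C α = Κ ^ 3 * Δ := by rw [← h4, map_mul, map_pow]
  obtain ⟨S, hS⟩ : ∃ S, S = T ^ 12 + E * (W - 2) * T ^ 6 + E ^ 2 := ⟨_, rfl⟩
  obtain ⟨R, hR⟩ : ∃ R, R = Δ * (T ^ 9 - E * T ^ 3) := ⟨_, rfl⟩
  have hSR : S ^ 2 - R ^ 2 = T ^ 24 + E * T ^ 18 + E ^ 2 * T ^ 12 + E ^ 3 * T ^ 6 + E ^ 4 := by
    rw [hS, hR]
    linear_combination (E * T ^ 18 - E ^ 2 * T ^ 12 + E ^ 3 * T ^ 6) * c2 -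
      T ^ 6 * (T ^ 6 - E) ^ 2 * c3
  have hDSR : DD α γ (3 * l) = Κ ^ 3 * ((S + R) * (S - R)) * R / T ^ 3 := by
    rw [hD, c1, c4, eq_div_iff (pow_ne_zero _ hT0)]
    have : (S + R) * (S - R) = T ^ 24 + E * T ^ 18 + E ^ 2 * T ^ 12 + E ^ 3 * T ^ 6 + E ^ 4 := by
      rw [← hSR]; ring
    rw [this, hR]
    ring
  have hne1 : Κ ^ 3 * ((S + R) * (S - R)) * R ≠ 0 := by
    intro h0
    rw [hDSR, h0, zero_div] at hDne
    exact hDne rfl
  have hR0 : R ≠ 0 := right_ne_zero_of_mul hne1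
  have hN : (S + R) * (S - R) ≠ 0 := right_ne_zero_of_mul (left_ne_zero_of_mul hne1)
  have hS0 : S ≠ 0 := by
    intro h0
    apply hG.hno (Κ ^ 2 * ((S + R) * (S - R)) / T ^ 2)
    rw [hDSR, h0]
    field_simp
    ring
  obtain ⟨g1, g2⟩ := gen30 (der k) (T := T) (S := S) (R := R) (κ := Κ) (der_C κ) h3' hT0 hκ' hN
    hR0 hS0
  rw [← hDSR] at g1 g2
  have hns := mordell_nonsingular _ _ _ (pow_ne_zero 2 hDne) h2' h3' g1
  refine ⟨.some _ _ hns, ?_⟩
  have hdT : der k T = algebraMap k[X] (RatFunc k) (C (i : k) * X ^ (i - 1)) := der_X_pow i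
  have hdS : der k S = (12 * T ^ 11 + 6 * E * (W - 2) * T ^ 5) * der k T := by
    have hE0 : der k E = 0 := der_C e
    have hW0 : der k W = 0 := der_C w
    have h2c : der k (2 : RatFunc k) = 0 := by
      have := dz_natCast (der k) 2
      exact_mod_cast this
    rw [hS]
    simp only [map_add, map_sub, dz_mul, dz_pow, hE0, hW0, h2c]
    push_cast
    ring
  have hdR : der k R = Δ * (9 * T ^ 8 - 3 * E * T ^ 2) * der k T := by
    have hE0 : der k E = 0 := der_C e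
    have hΔ0 : der k Δ = 0 := der_C δ
    rw [hR]
    simp only [map_sub, dz_mul, dz_pow, hE0, hΔ0]
    push_cast
    ring
  have key : 2 * Κ ^ 2 / 3 * (R * der k S - S * der k R) / T ^ 2 =
      2 * Κ ^ 2 * Δ * (T ^ 18 - E * (W + 1) * T ^ 12 - E ^ 2 * (W + 1) * T ^ 6 + E ^ 3) *
        der k T := by
    rw [hdS, hdR, hS, hR]
    field_simp
    ring
  have hH : DD α γ (3 * l) * ((der k (Κ ^ 2 * ((S + R) * (S - R)) / T ^ 2) -
      2 / 3 * (der k (DD α γ (3 * l)) / DD α γ (3 * l)) *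
      (Κ ^ 2 * ((S + R) * (S - R)) / T ^ 2)) /
      (Κ ^ 3 * ((S + R) * (S - R)) * S / T ^ 3)) =
      algebraMap k[X] (RatFunc k) (C (2 * κ ^ 2 * δ * i) * X ^ (19 * i - 1) +
        C (-e * (w + 1) * (2 * κ ^ 2 * δ) * i) * X ^ (13 * i - 1) +
        C (-e ^ 2 * (w + 1) * (2 * κ ^ 2 * δ) * i) * X ^ (7 * i - 1) +
        C (e ^ 3 * (2 * κ ^ 2 * δ) * i) * X ^ (i - 1)) := by
    rw [g2, key, hdT, hT, hE, hW, hΔ, hΚ]
    simp only [map_add, map_mul, map_neg, map_pow, map_one, RatFunc.algebraMap_C,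
      RatFunc.algebraMap_X, map_ofNat, map_natCast]
    have e1 : 7 * i - 1 = 6 * i + (i - 1) := by omega
    have e2 : 13 * i - 1 = 12 * i + (i - 1) := by omega
    have e3 : 19 * i - 1 = 18 * i + (i - 1) := by omega
    rw [e1, e2, e3, pow_add, pow_add, pow_add]
    ring
  intro j
  have hne : ∀ a b : ℕ, a < b → 0 < a → a * i - 1 ≠ b * i - 1 := by
    intro a b hab ha
    have h1 : a * i < b * i := Nat.mul_lt_mul_of_pos_right hab hi0
    have h2 : 0 < a * i := Nat.mul_pos ha hi0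
    omega
  have n1 := hne 1 7 (by norm_num) (by norm_num)
  have n2 := hne 1 13 (by norm_num) (by norm_num)
  have n3 := hne 1 19 (by norm_num) (by norm_num)
  have n4 := hne 7 13 (by norm_num) (by norm_num)
  have n5 := hne 7 19 (by norm_num) (by norm_num)
  have n6 := hne 13 19 (by norm_num) (by norm_num)
  rw [one_mul] at n1 n2 n3
  refine ⟨?_, ?_, ?_, ?_⟩
  · intro hj
    rw [hv_of_formula hG hns _ hH j (by omega), hj]
    simp only [coeff_add, coeff_C_mul, coeff_X_pow, if_neg n1, if_neg n2, if_neg n3]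
    simp
  · intro hj
    rw [hv_of_formula hG hns _ hH j (by omega), hj]
    simp only [coeff_add, coeff_C_mul, coeff_X_pow, if_neg n1.symm, if_neg n4, if_neg n5]
    simp
  · intro hj
    rw [hv_of_formula hG hns _ hH j (by omega), hj]
    simp only [coeff_add, coeff_C_mul, coeff_X_pow, if_neg n2.symm, if_neg n4.symm, if_neg n6]
    simp
  · intro hj
    rw [hv_of_formula hG hns _ hH j (by omega), hj]
    simp only [coeff_add, coeff_C_mul, coeff_X_pow, if_neg n3.symm, if_neg n5.symm,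
      if_neg n6.symm]
    simp

end EXPL

end Pool.Agent.Helper23.K6
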