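import Mathlib
import Pool.Agent.Helper23.K6.Defs

/-!
An affine rational point of the plane cubic gives a point with `x ≠ 0` on the Weierstrass form.
-/

namespace Pool.Agent.Helper23.K6

open Polynomial Pool.Agent.Helper44

/-- An affine point of the plane cubic `(x₁³ - b) t^(6n) = c (x₀³ - b)` gives a point with
`x ≠ 0` on `y² = x³ + A²`. -/
lemma exists_x_ne_zero {F : Type*} [Field F] (b c γ θ : F) (n : ℕ) (h2 : (2 : F) ≠ 0)
    (hb : b ≠ 0) (hn : 0 < n) (hγ : γ ^ 3 = c) (hθ : θ ^ 2 = -3) (h3 : (3 : F) ≠ 0)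
    (x₀ x₁ : RatFunc F)
    (h : (x₁ ^ 3 - RatFunc.C b) * RatFunc.X ^ (6 * n) = RatFunc.C c * (x₀ ^ 3 - RatFunc.C b)) :
    ∃ x y : RatFunc F, x ≠ 0 ∧ y ^ 2 = x ^ 3 + AA b c n ^ 2 := by
  have h2' := two_ne_zero_ratFunc h2
  have hA := AA_ne_zero b c hn h2 hb
  have hθ0 : θ ≠ 0 := by
    rintro rfl
    apply h3
    linear_combination hθ
  have hθ' : (RatFunc.C θ : RatFunc F) ≠ 0 := (_root_.map_ne_zero _).2 hθ0
  have hb' : (RatFunc.C b : RatFunc F) ≠ 0 := (_root_.map_ne_zero _).2 hb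
  have hθ2 : (RatFunc.C θ : RatFunc F) ^ 2 = -3 := by
    rw [← map_pow, hθ, map_neg, map_ofNat]
  have hγ3 : (RatFunc.C γ : RatFunc F) ^ 3 = RatFunc.C c := by
    rw [← map_pow, hγ]
  have hAX : 2 * RatFunc.C b ^ 2 * AA b c n = RatFunc.X ^ (6 * n) - RatFunc.C c := by
    rw [AA]
    field_simp
  obtain ⟨A, hAdef⟩ : ∃ A, A = AA b c n := ⟨_, rfl⟩
  rw [← hAdef] at hA hAX ⊢
  obtain ⟨B, hB⟩ : ∃ B, B = RatFunc.C γ * x₀ := ⟨_, rfl⟩
  obtain ⟨C', hC⟩ : ∃ C', C' = RatFunc.X ^ (2 * n) * x₁ := ⟨_, rfl⟩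
  have e1 : (RatFunc.X : RatFunc F) ^ (6 * n) = (RatFunc.X ^ (2 * n)) ^ 3 := by
    rw [← pow_mul]; congr 1; ring
  have key : B ^ 3 - C' ^ 3 = -(2 * RatFunc.C b ^ 3 * A) := by
    have : C' ^ 3 - RatFunc.C b * RatFunc.X ^ (6 * n) = B ^ 3 - RatFunc.C b * RatFunc.C c := by
      rw [hB, hC, mul_pow, mul_pow, hγ3, ← e1]
      linear_combination h
    linear_combination -this + RatFunc.C b * hAX
  have hne : B - C' ≠ 0 := by
    intro h0
    have h1 : 2 * RatFunc.C b ^ 3 * A = 0 := by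
      have : B ^ 3 - C' ^ 3 = 0 := by
        have : B ^ 3 - C' ^ 3 = (B - C') * (B ^ 2 + B * C' + C' ^ 2) := by ring
        rw [this, h0, zero_mul]
      linear_combination key - this
    exact (mul_ne_zero (mul_ne_zero h2' (pow_ne_zero _ hb')) hA) h1
  refine ⟨2 * RatFunc.C b * A / (B - C'), 3 * A * (B + C') / (RatFunc.C θ * (B - C')),
    div_ne_zero (mul_ne_zero (mul_ne_zero h2' hb') hA) hne, ?_⟩
  rw [div_pow, div_pow, mul_pow (RatFunc.C θ), hθ2]
  field_simp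
  linear_combination (-4 : RatFunc F) * key

/-- If all affine points of the Weierstrass form have `x = 0`, the plane cubic has no affine
point. -/
theorem affine_empty {F : Type*} [Field F] (b c : F) (n : ℕ) (h2 : (2 : F) ≠ 0)
    (h3 : (3 : F) ≠ 0) (hb : b ≠ 0) (hn : 0 < n) (hc : ∃ z : F, z ^ 3 = c)
    (hθ : ∃ θ : F, θ ^ 2 = -3)
    (hall : ∀ x y : RatFunc F, y ^ 2 = x ^ 3 + AA b c n ^ 2 → x = 0) :
    {P : RatFunc F × RatFunc F | (P.2 ^ 3 - RatFunc.C b) * RatFunc.X ^ (6 * n) =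
      RatFunc.C c * (P.1 ^ 3 - RatFunc.C b)} = ∅ := by
  obtain ⟨z, hz⟩ := hc
  obtain ⟨θ, hθ⟩ := hθ
  ext ⟨x₀, x₁⟩
  simp only [Set.mem_ofPred_eq, Set.mem_empty_iff_false, iff_false]
  intro h
  obtain ⟨x, y, hx, hxy⟩ := exists_x_ne_zero b c z θ n h2 hb hn hz hθ h3 x₀ x₁ h
  exact hx (hall x y hxy)

/-- If all affine points of the Weierstrass form have `x = 0`, there are exactly three points. -/
theorem card_three {K : Type*} [Field K] (A : K) (h2 : (2 : K) ≠ 0) (h3 : (3 : K) ≠ 0)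
    (hA : A ≠ 0) (hall : ∀ x y : K, y ^ 2 = x ^ 3 + A ^ 2 → x = 0) :
    Nat.card (mordell (A ^ 2)).toAffine.Point = 3 := by
  have hA2 : A ^ 2 ≠ 0 := pow_ne_zero _ hA
  have h1 : (mordell (A ^ 2)).toAffine.Nonsingular 0 A :=
    mordell_nonsingular _ _ _ hA2 h2 h3 (by ring)
  have h1' : (mordell (A ^ 2)).toAffine.Nonsingular 0 (-A) :=
    mordell_nonsingular _ _ _ hA2 h2 h3 (by ring)
  let f : Fin 3 → (mordell (A ^ 2)).toAffine.Point :=
    ![.zero, .some 0 A h1, .some 0 (-A) h1']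
  have hne : A ≠ -A := by
    intro h
    have : (2 : K) * A = 0 := by linear_combination h
    rcases mul_eq_zero.1 this with h' | h'
    · exact h2 h'
    · exact hA h'
  have hf : Function.Bijective f := by
    constructor
    · intro i j hij
      fin_cases i <;> fin_cases j <;> simp_all [f]
    · intro P
      cases P with
      | zero => exact ⟨0, rfl⟩
      | some x y h =>
        have e := (mordell_equation _ _ _).1 h.1
        have hx := hall x y e
        subst hx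
        have hy : y ^ 2 = A ^ 2 := by rw [e]; ring
        rcases sq_eq_sq_iff_eq_or_eq_neg.1 hy with rfl | rfl
        · exact ⟨1, rfl⟩
        · exact ⟨2, rfl⟩
  rw [← Nat.card_eq_of_bijective f hf]
  simp

section reduction

variable {F : Type*} [Field F] (p : ℕ) [hp : Fact p.Prime] [CharP F p]

lemma AA_pow (b c : F) (n : ℕ) : AA (b ^ p) (c ^ p) (p * n) = AA b c n ^ p := by
  have := charP_ratFunc (k := F) p
  have h2 : (2 : RatFunc F) ^ p = 2 := by
    have h := map_natCast (frobenius (RatFunc F) p) 2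
    rw [frobenius_def] at h
    exact_mod_cast h
  rw [AA, AA, div_pow, sub_pow_char, mul_pow, h2, ← pow_mul, ← pow_mul, map_pow, map_pow,
    ← pow_mul]
  congr 2
  · congr 1
    ring
  · rw [mul_comm p 2]

variable [DecidableEq (RatFunc F)]

/-- The reduction of `n` divisible by `p`: an injective additive map. -/
theorem exists_red (hp3 : p % 3 = 1) (b c : F) (n : ℕ) (hA : AA b c n ≠ 0) :
    ∃ f : (mordell (AA (b ^ p) (c ^ p) (p * n) ^ 2)).toAffine.Point →+
        (mordell (AA b c n ^ 2)).toAffine.Point,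
      Function.Injective f ∧ ∀ (x y : RatFunc F)
        (h : (mordell (AA (b ^ p) (c ^ p) (p * n) ^ 2)).toAffine.Nonsingular x y),
        ∃ (x' y' : RatFunc F) (h' : (mordell (AA b c n ^ 2)).toAffine.Nonsingular x' y'),
          f (.some x y h) = .some x' y' h' ∧ (x' = 0 ↔ x = 0) := by
  have hu : (AA b c n ^ ((p - 1) / 3))⁻¹ ≠ 0 := inv_ne_zero (pow_ne_zero _ hA)
  have h : ((AA b c n ^ ((p - 1) / 3))⁻¹) ^ 6 *
      RingHom.id (RatFunc F) (AA (b ^ p) (c ^ p) (p * n) ^ 2) = AA b c n ^ 2 := by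
    rw [RingHom.id_apply, AA_pow, inv_pow, ← pow_mul, ← pow_mul]
    have e : p * 2 = (p - 1) / 3 * 6 + 2 := by
      have := hp.out.one_lt
      omega
    rw [e, pow_add, ← mul_assoc, inv_mul_cancel₀ (pow_ne_zero _ hA), one_mul]
  refine ⟨tw (RingHom.id _) _ hu h, tw_injective _ _ _ _, ?_⟩
  intro x y hns
  refine ⟨_, _, _, tw_some _ _ hu h x y hns, ?_⟩
  rw [RingHom.id_apply]
  constructor
  · intro h0
    exact (mul_eq_zero.1 h0).resolve_left (pow_ne_zero _ hu)
  · rintro rfl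
    rw [mul_zero]

end reduction

end Pool.Agent.Helper23.K6
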